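import Mathlib
import Pool.Agent.R924.H3

set_option autoImplicit false

/-!
A surjective ring homomorphism which is not relatively left perfect: from a free algebra onto a
commutative von Neumann regular ring.

`IsFlat S F` is flatness of a left module over an arbitrary ring (the equational criterion),
`Ext1Zero S F C` says that every extension of `F` by `C` splits, and `IsCotorsion S C` says that
`Ext1Zero S F C` holds for all flat `F`.
-/

namespace Pool.Agent.Results.MP_874a88_al.FreeAlgebraQuotient

open Pool.Agent.R924 Pool.Agent.R924.FD CategoryTheory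

set_option backward.isDefEq.respectTransparency false

/-- There are a ring homomorphism `f : R → A`, such that `A` is a finitely generated right
`R`-module (it is even surjective, and `A` is commutative), and an `A`-module which is cotorsion
over `R` but not over `A`. -/
theorem result :
    ∃ (R A : Type) (_ : Ring R) (_ : CommRing A) (f : R →+* A),
      Function.Surjective f ∧
      (∃ (n : ℕ) (g : Fin n → A), ∀ a : A, ∃ r : Fin n → R, a = ∑ i, g i * f (r i)) ∧
      ∃ (C : Type) (_ : AddCommGroup C) (_ : Module A C),
        (letI : Module R C := Module.compHom C f; IsCotorsion R C) ∧ ¬ IsCotorsion A C := by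
  have hunc : Uncountable (Set ℕ) := by
    rw [← not_countable_iff]
    intro h
    exact Function.cantor_surjective _ (exists_surjective_nat (Set ℕ)).choose_spec
  let A := FD (Set ℕ) ℚ
  let R := FreeAlgebra ℚ A
  let f : R →+* A := (FreeAlgebra.lift ℚ (id : A → A)).toRingHom
  have hf : Function.Surjective f := fun a => ⟨FreeAlgebra.ι ℚ a, FreeAlgebra.lift_ι_apply _ _⟩
  let K := LinearMap.ker (Finsupp.linearCombination A (id : mm (Set ℕ) ℚ → mm (Set ℕ) ℚ))
  obtain ⟨pres⟩ := EnoughInjectives.presentation (ModuleCat.of A K)
  have hE : Module.Injective A pres.J :=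
    Module.injective_module_of_injective_object A pres.J (inj := pres.injective)
  let j : K →ₗ[A] pres.J := pres.f.hom
  have hj : Function.Injective j := (ModuleCat.mono_iff_injective pres.f).1 pres.mono
  refine ⟨R, A, inferInstance, inferInstance, f, hf, ⟨1, fun _ => 1, fun a => ?_⟩,
    pres.J ⧸ LinearMap.range j, inferInstance, inferInstance, ?_, fun h => ?_⟩
  · obtain ⟨r, rfl⟩ := hf a
    exact ⟨fun _ => r, by rw [Finset.univ_unique, Finset.sum_singleton, one_mul]⟩
  · let _ : Module R pres.J := Module.compHom pres.J f
    let _ : Module R (pres.J ⧸ LinearMap.range j) := Module.compHom _ f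
    intro G _ _ hG
    let q : pres.J →ₗ[R] (pres.J ⧸ LinearMap.range j) :=
      { toFun := (LinearMap.range j).mkQ
        map_add' := map_add _
        map_smul' := fun r e => map_smul (LinearMap.range j).mkQ (f r) e }
    exact ext1Zero_of_surjective q (LinearMap.range j).mkQ_surjective
      (cotorsion_of_injective f hf (fun _ _ => rfl) hE hG)
  · exact not_ext1Zero (Set ℕ) ℚ hE j hj (h _ (isFlat_residue (Set ℕ) ℚ))

end Pool.Agent.Results.MP_874a88_al.FreeAlgebraQuotient
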